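import Mathlib

namespace Pool.Agent.Results.MP_d1f6bb_co.SmallerCosts

/-- The `X × X` mesh. -/
abbrev Mesh (X : ℕ) := Fin X × Fin X

/-- Five-point stencil neighbours: `|x₁ - y₁| + |x₂ - y₂| = 1`. -/
def Nbr {X : ℕ} (u v : Mesh X) : Prop :=
  |((u.1 : ℕ) : ℤ) - ((v.1 : ℕ) : ℤ)| + |((u.2 : ℕ) : ℤ) - ((v.2 : ℕ) : ℤ)| = 1

instance {X : ℕ} (u v : Mesh X) : Decidable (Nbr u v) := by
  unfold Nbr; infer_instance

/-- The net `N[v]`: `v` together with its neighbours. -/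
def net {X : ℕ} (v : Mesh X) : Finset (Mesh X) :=
  Finset.univ.filter (fun u => u = v ∨ Nbr u v)

/-- `λ(v)`: the number of parts that meet `N[v]`. -/
def lam {X : ℕ} (P : Mesh X → Fin 4) (v : Mesh X) : ℕ := ((net v).image P).card

/-- The connectivity-1 cost. -/
def cost {X : ℕ} (P : Mesh X → Fin 4) : ℕ := ∑ v, (lam P v - 1)

/-- Perfect balance: every one of the four parts has exactly `X^2/4` points. -/
def Balanced {X : ℕ} (P : Mesh X → Fin 4) : Prop :=
  ∀ i : Fin 4, 4 * (Finset.univ.filter (fun v => P v = i)).card = X ^ 2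

/-- The minimum cost over all perfectly balanced 4-way partitions. -/
noncomputable def V (X : ℕ) : ℕ := sInf {c | ∃ P : Mesh X → Fin 4, Balanced P ∧ cost P = c}

/-- `HasPartition X c`: some perfectly balanced 4-way partition of the `X × X` mesh has cost at
most `c`. -/
def HasPartition (X c : ℕ) : Prop := ∃ P : Mesh X → Fin 4, Balanced P ∧ cost P ≤ c

/-- outer boundary of part `j`: points outside part `j` with a neighbour in part `j` -/
def outer {X : ℕ} (P : Mesh X → Fin 4) (j : Fin 4) : Finset (Mesh X) :=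
  Finset.univ.filter (fun v => P v ≠ j ∧ ∃ u, Nbr u v ∧ P u = j)

theorem mem_outer {X : ℕ} (P : Mesh X → Fin 4) (j : Fin 4) (v : Mesh X) :
    v ∈ outer P j ↔ P v ≠ j ∧ ∃ u, Nbr u v ∧ P u = j := by
  unfold outer
  rw [Finset.mem_filter]
  simp

theorem cost_eq {X : ℕ} (P : Mesh X → Fin 4) : cost P = ∑ j, (outer P j).card := by
  unfold cost
  have h : ∀ v, lam P v - 1 = (Finset.univ.filter (fun j => P v ≠ j ∧ ∃ u, Nbr u v ∧ P u = j)).card := by
    intro v
    unfold lam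
    have h1 : P v ∈ (net v).image P := by
      apply Finset.mem_image_of_mem
      simp [net]
    rw [← Finset.card_erase_of_mem h1]
    congr 1
    ext j
    simp only [Finset.mem_erase, Finset.mem_image, net, Finset.mem_filter, Finset.mem_univ, true_and]
    constructor
    · rintro ⟨h2, u, hu, rfl⟩
      rcases hu with rfl | hu
      · exact absurd rfl h2
      · exact ⟨fun h => h2 h.symm, u, hu, rfl⟩
    · rintro ⟨h2, u, hu, rfl⟩
      exact ⟨fun h => h2 h.symm, u, Or.inr hu, rfl⟩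
  simp_rw [h]
  unfold outer
  simp_rw [Finset.card_filter]
  rw [Finset.sum_comm]

/-- The partition: two corner triangles (with some cells of their last antidiagonal given away)
and the rest cut along the main diagonal. -/
def part (X k a0 b0 a1 b1 x y : ℕ) : Fin 4 :=
  if x + y + 1 ≤ k ∧ ¬ (x + y + 1 = k ∧ (y < a0 ∨ x < b0)) then 0
  else if (X - 1 - x) + (X - 1 - y) + 1 ≤ k ∧
    ¬ ((X - 1 - x) + (X - 1 - y) + 1 = k ∧ ((X - 1 - x) < a1 ∨ (X - 1 - y) < b1)) then 1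
  else if y < x then 2 else 3

def PP (X k a0 b0 a1 b1 : ℕ) (v : Mesh X) : Fin 4 := part X k a0 b0 a1 b1 v.1 v.2

theorem nbr_iff {X : ℕ} (u v : Mesh X) : Nbr u v ↔
    ((u.1 : ℕ) = v.1 ∧ ((u.2 : ℕ) = v.2 + 1 ∨ (v.2 : ℕ) = u.2 + 1)) ∨
    ((u.2 : ℕ) = v.2 ∧ ((u.1 : ℕ) = v.1 + 1 ∨ (v.1 : ℕ) = u.1 + 1)) := by
  unfold Nbr
  rcases u with ⟨⟨a, ha⟩, ⟨b, hb⟩⟩
  rcases v with ⟨⟨c, hc⟩, ⟨d, hd⟩⟩
  simp only
  rcases abs_cases ((a : ℤ) - (c : ℤ)) with h1 | h1 <;>
    rcases abs_cases ((b : ℤ) - (d : ℤ)) with h2 | h2 <;>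
    rw [h1.1, h2.1] <;> omega

theorem card_le_of_cover {X : ℕ} (S : Finset (Mesh X)) (N : ℕ) (f : ℕ → ℕ × ℕ)
    (h : ∀ v ∈ S, ∃ i < N, f i = ((v.1 : ℕ), (v.2 : ℕ))) : S.card ≤ N := by
  have h1 : (S.image (fun v : Mesh X => ((v.1 : ℕ), (v.2 : ℕ)))) ⊆ (Finset.range N).image f := by
    intro p hp
    rw [Finset.mem_image] at hp
    obtain ⟨v, hv, rfl⟩ := hp
    obtain ⟨i, hi, hf⟩ := h v hv
    rw [Finset.mem_image]
    exact ⟨i, Finset.mem_range.2 hi, hf⟩
  have h2 := Finset.card_le_card h1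
  rw [Finset.card_image_of_injective] at h2
  · exact h2.trans (Finset.card_image_le.trans (by simp))
  · intro u v huv
    simp only [Prod.mk.injEq, and_true] at huv
    exact Prod.ext (Fin.ext huv.1) (Fin.ext huv.2)

theorem part_eq_zero {X k a0 b0 a1 b1 x y : ℕ} : part X k a0 b0 a1 b1 x y = 0 ↔
    (x + y + 1 ≤ k ∧ ¬ (x + y + 1 = k ∧ (y < a0 ∨ x < b0))) := by
  unfold part
  split_ifs <;> simp_all

theorem part_eq_one {X k a0 b0 a1 b1 x y : ℕ} : part X k a0 b0 a1 b1 x y = 1 ↔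
    (¬ (x + y + 1 ≤ k ∧ ¬ (x + y + 1 = k ∧ (y < a0 ∨ x < b0))) ∧
    ((X - 1 - x) + (X - 1 - y) + 1 ≤ k ∧
    ¬ ((X - 1 - x) + (X - 1 - y) + 1 = k ∧ ((X - 1 - x) < a1 ∨ (X - 1 - y) < b1)))) := by
  unfold part
  split_ifs <;> simp_all

theorem part_eq_two {X k a0 b0 a1 b1 x y : ℕ} : part X k a0 b0 a1 b1 x y = 2 ↔
    (¬ (x + y + 1 ≤ k ∧ ¬ (x + y + 1 = k ∧ (y < a0 ∨ x < b0))) ∧
    ¬ ((X - 1 - x) + (X - 1 - y) + 1 ≤ k ∧
    ¬ ((X - 1 - x) + (X - 1 - y) + 1 = k ∧ ((X - 1 - x) < a1 ∨ (X - 1 - y) < b1))) ∧ y < x) := by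
  unfold part
  split_ifs <;> simp_all

theorem part_eq_three {X k a0 b0 a1 b1 x y : ℕ} : part X k a0 b0 a1 b1 x y = 3 ↔
    (¬ (x + y + 1 ≤ k ∧ ¬ (x + y + 1 = k ∧ (y < a0 ∨ x < b0))) ∧
    ¬ ((X - 1 - x) + (X - 1 - y) + 1 ≤ k ∧
    ¬ ((X - 1 - x) + (X - 1 - y) + 1 = k ∧ ((X - 1 - x) < a1 ∨ (X - 1 - y) < b1))) ∧ ¬ y < x) := by
  unfold part
  split_ifs <;> simp_all


section
variable {h k r a0 b0 a1 b1 : ℕ}

/-- parameter hypotheses -/
structure Good (h k r a0 b0 a1 b1 : ℕ) : Prop where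
  hk : k * (k + 1) = 2 * h ^ 2 + 2 * r
  hk1 : 1 ≤ k
  hkX : k < 2 * h
  r0 : a0 + b0 = r
  r1 : a1 + b1 = r
  ha0 : 2 * a0 ≤ k
  hb0 : 2 * b0 ≤ k
  ha1 : 2 * a1 ≤ k
  hb1 : 2 * b1 ≤ k
  hr : r < k
  bal : a0 + a1 + (k + 1) / 2 = r + h

theorem outer_zero (g : Good h k r a0 b0 a1 b1) :
    (outer (PP (2 * h) k a0 b0 a1 b1) 0).card ≤ k + 1 := by
  obtain ⟨hk, hk1, hkX, r0, r1, ha0, hb0, ha1, hb1, hr, bal⟩ := g
  clear hk bal
  apply card_le_of_cover _ _ (fun i => if i < a0 then (k - 1 - i, i) else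
    if i ≤ k - b0 then (k - i, i) else (k - i, i - 1))
  rintro ⟨⟨x, hx⟩, ⟨y, hy⟩⟩ hv
  rw [mem_outer] at hv
  simp only [PP, ne_eq] at hv
  obtain ⟨hv, ⟨⟨x', hx'⟩, ⟨y', hy'⟩⟩, hn, hu⟩ := hv
  rw [nbr_iff] at hn
  simp only at hn hv hu
  rw [part_eq_zero] at hv hu
  simp only
  by_cases c1 : x + y + 1 = k
  · by_cases c2 : y < a0
    · refine ⟨y, by omega, ?_⟩
      simp only [c2, if_true, Prod.mk.injEq, and_true]
      omega
    · refine ⟨y + 1, by omega, ?_⟩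
      have c3 : ¬ (y + 1 < a0) := by omega
      have c4 : ¬ (y + 1 ≤ k - b0) := by omega
      simp only [c3, c4, if_false, Prod.mk.injEq, and_true]
      omega
  · refine ⟨y, by omega, ?_⟩
    have c3 : ¬ (y < a0) := by omega
    have c4 : (y ≤ k - b0) := by omega
    simp only [c3, c4, if_false, if_true, Prod.mk.injEq, and_true]
    omega

theorem outer_one (g : Good h k r a0 b0 a1 b1) :
    (outer (PP (2 * h) k a0 b0 a1 b1) 1).card ≤ k + 1 := by
  obtain ⟨hk, hk1, hkX, r0, r1, ha0, hb0, ha1, hb1, hr, bal⟩ := g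
  clear hk bal
  apply card_le_of_cover _ _ (fun i => if i < b1 then (2 * h - 1 - (k - 1 - i), 2 * h - 1 - i) else
    if i ≤ k - a1 then (2 * h - 1 - (k - i), 2 * h - 1 - i) else
      (2 * h - 1 - (k - i), 2 * h - 1 - (i - 1)))
  rintro ⟨⟨x, hx⟩, ⟨y, hy⟩⟩ hv
  rw [mem_outer] at hv
  simp only [PP, ne_eq] at hv
  obtain ⟨hv, ⟨⟨x', hx'⟩, ⟨y', hy'⟩⟩, hn, hu⟩ := hv
  rw [nbr_iff] at hn
  simp only at hn hv hu
  rw [part_eq_one] at hv hu
  simp only
  by_cases c1 : (2 * h - 1 - x) + (2 * h - 1 - y) + 1 = k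
  · by_cases c2 : (2 * h - 1 - y) < b1
    · refine ⟨2 * h - 1 - y, by omega, ?_⟩
      simp only [c2, if_true, Prod.mk.injEq]
      omega
    · refine ⟨(2 * h - 1 - y) + 1, by omega, ?_⟩
      have c3 : ¬ ((2 * h - 1 - y) + 1 < b1) := by omega
      have c4 : ¬ ((2 * h - 1 - y) + 1 ≤ k - a1) := by omega
      simp only [c3, c4, if_false, Prod.mk.injEq]
      omega
  · refine ⟨(2 * h - 1 - y), by omega, ?_⟩
    have c3 : ¬ ((2 * h - 1 - y) < b1) := by omega
    have c4 : ((2 * h - 1 - y) ≤ k - a1) := by omega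
    simp only [c3, c4, if_false, if_true, Prod.mk.injEq]
    omega

theorem outer_two (g : Good h k r a0 b0 a1 b1) :
    (outer (PP (2 * h) k a0 b0 a1 b1) 2).card ≤ 2 * h := by
  obtain ⟨hk, hk1, hkX, r0, r1, ha0, hb0, ha1, hb1, hr, bal⟩ := g
  clear hk bal
  apply card_le_of_cover _ _ (fun i =>
    if i < (k + 1) / 2 then (if i < a0 then (k - i - 2, i) else (k - i - 1, i)) else
    if i < 2 * h - (k + 1) / 2 then (i, i) else
      (if 2 * h - 1 - i < a1 then (i, 2 * h - (k - (2 * h - 1 - i) - 1)) else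
        (i, 2 * h - (k - (2 * h - 1 - i)))))
  rintro ⟨⟨x, hx⟩, ⟨y, hy⟩⟩ hv
  rw [mem_outer] at hv
  simp only [PP, ne_eq] at hv
  obtain ⟨hv, ⟨⟨x', hx'⟩, ⟨y', hy'⟩⟩, hn, hu⟩ := hv
  rw [nbr_iff] at hn
  simp only at hn hv hu
  rw [part_eq_two] at hv hu
  simp only
  by_cases c0 : (x + y + 1 ≤ k ∧ ¬ (x + y + 1 = k ∧ (y < a0 ∨ x < b0)))
  · refine ⟨y, by omega, ?_⟩
    have c1 : y < (k + 1) / 2 := by omega
    simp only [c1, if_true]
    split_ifs <;> simp only [Prod.mk.injEq, and_true] <;> omega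
  · by_cases c1 : ((2 * h - 1 - x) + (2 * h - 1 - y) + 1 ≤ k ∧
    ¬ ((2 * h - 1 - x) + (2 * h - 1 - y) + 1 = k ∧ ((2 * h - 1 - x) < a1 ∨ (2 * h - 1 - y) < b1)))
    · refine ⟨x, by omega, ?_⟩
      have c2 : ¬ (x < (k + 1) / 2) := by omega
      have c3 : ¬ (x < 2 * h - (k + 1) / 2) := by omega
      simp only [c2, c3, if_false]
      split_ifs <;> simp only [Prod.mk.injEq, true_and] <;> omega
    · have c4 : x = y := by omega
      refine ⟨x, by omega, ?_⟩
      have c2 : ¬ (x < (k + 1) / 2) := by omega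
      have c3 : (x < 2 * h - (k + 1) / 2) := by omega
      simp only [c2, c3, if_false, if_true, Prod.mk.injEq, true_and]
      omega

theorem outer_three (g : Good h k r a0 b0 a1 b1) :
    (outer (PP (2 * h) k a0 b0 a1 b1) 3).card ≤ 2 * h + 1 := by
  obtain ⟨hk, hk1, hkX, r0, r1, ha0, hb0, ha1, hb1, hr, bal⟩ := g
  clear hk bal
  apply card_le_of_cover _ _ (fun i =>
    if i < k / 2 + 1 then (if i < b0 then (i, k - i - 2) else (i, k - i - 1)) else
    if i < 2 * h - k / 2 then (i, i - 1) else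
      (if 2 * h - i < b1 then (2 * h - (k - (2 * h - i) - 1), i - 1) else
        (2 * h - (k - (2 * h - i)), i - 1)))
  rintro ⟨⟨x, hx⟩, ⟨y, hy⟩⟩ hv
  rw [mem_outer] at hv
  simp only [PP, ne_eq] at hv
  obtain ⟨hv, ⟨⟨x', hx'⟩, ⟨y', hy'⟩⟩, hn, hu⟩ := hv
  rw [nbr_iff] at hn
  simp only at hn hv hu
  rw [part_eq_three] at hv hu
  simp only
  by_cases c0 : (x + y + 1 ≤ k ∧ ¬ (x + y + 1 = k ∧ (y < a0 ∨ x < b0)))
  · refine ⟨x, by omega, ?_⟩
    have c1 : x < k / 2 + 1 := by omega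
    simp only [c1, if_true]
    split_ifs <;> simp only [Prod.mk.injEq, true_and] <;> omega
  · by_cases c1 : ((2 * h - 1 - x) + (2 * h - 1 - y) + 1 ≤ k ∧
    ¬ ((2 * h - 1 - x) + (2 * h - 1 - y) + 1 = k ∧ ((2 * h - 1 - x) < a1 ∨ (2 * h - 1 - y) < b1)))
    · refine ⟨y + 1, by omega, ?_⟩
      have c2 : ¬ (y + 1 < k / 2 + 1) := by omega
      have c3 : ¬ (y + 1 < 2 * h - k / 2) := by omega
      simp only [c2, c3, if_false]
      split_ifs <;> simp only [Prod.mk.injEq, true_and] <;> omega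
    · have c4 : x = y + 1 := by omega
      refine ⟨x, by omega, ?_⟩
      split_ifs <;> simp only [Prod.mk.injEq, true_and] <;> omega

theorem cost_le (g : Good h k r a0 b0 a1 b1) :
    cost (PP (2 * h) k a0 b0 a1 b1) ≤ 4 * h + 2 * k + 3 := by
  rw [cost_eq, Fin.sum_univ_four]
  have h0 := outer_zero g
  have h1 := outer_one g
  have h2 := outer_two g
  have h3 := outer_three g
  omega

/-- counting function -/
def I (X : ℕ) (p : ℕ → ℕ → Prop) [∀ x y, Decidable (p x y)] : ℕ :=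
  ∑ v : Mesh X, if p v.1 v.2 then 1 else 0

theorem I_eq_card (X : ℕ) (p : ℕ → ℕ → Prop) [∀ x y, Decidable (p x y)] :
    I X p = (Finset.univ.filter (fun v : Mesh X => p v.1 v.2)).card := by
  unfold I
  rw [Finset.card_filter]

theorem I_rot (X : ℕ) (p : ℕ → ℕ → Prop) [∀ x y, Decidable (p x y)] :
    I X (fun x y => p (X - 1 - x) (X - 1 - y)) = I X p := by
  unfold I
  apply Fintype.sum_equiv (Equiv.prodCongr Fin.revPerm Fin.revPerm)
  rintro ⟨x, y⟩
  have hx : ((Fin.rev x : Fin X) : ℕ) = X - 1 - x := by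
    rw [Fin.val_rev]; omega
  have hy : ((Fin.rev y : Fin X) : ℕ) = X - 1 - y := by
    rw [Fin.val_rev]; omega
  simp only [Equiv.prodCongr_apply, Prod.map, Fin.revPerm_apply, hx, hy]

theorem I_swap (X : ℕ) (p : ℕ → ℕ → Prop) [∀ x y, Decidable (p x y)] :
    I X (fun x y => p y x) = I X p := by
  unfold I
  apply Fintype.sum_equiv (Equiv.prodComm _ _)
  rintro ⟨x, y⟩
  rfl

theorem I_anti (X k a : ℕ) (hk : k ≤ X) (ha : a ≤ k) :
    I X (fun x y => x + y + 1 = k ∧ y < a) = a := by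
  rw [I_eq_card]
  rw [← Finset.card_range a]
  refine Finset.card_bij (fun v _ => (v.2 : ℕ)) ?_ ?_ ?_
  · intro v hv
    simp only [Finset.mem_filter, Finset.mem_univ, true_and, Finset.card_range] at hv
    simp only [Finset.mem_range]
    omega
  · rintro ⟨⟨x, hx⟩, ⟨y, hy⟩⟩ hv ⟨⟨x', hx'⟩, ⟨y', hy'⟩⟩ hv' h
    simp only [Finset.mem_filter, Finset.mem_univ, true_and, Finset.card_range] at hv hv' h
    simp only [Prod.mk.injEq, Fin.mk.injEq]
    omega
  · intro i hi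
    simp only [Finset.mem_range] at hi
    refine ⟨(⟨k - 1 - i, by omega⟩, ⟨i, by omega⟩), ?_, rfl⟩
    simp only [Finset.mem_filter, Finset.mem_univ, true_and, Finset.card_range]
    omega

theorem I_tri (X k : ℕ) (hk : k ≤ X) :
    2 * I X (fun x y => x + y + 1 ≤ k) = k * (k + 1) := by
  induction k with
  | zero =>
    unfold I
    simp
  | succ k ih =>
    have h1 := ih (by omega)
    have h2 : I X (fun x y => x + y + 1 ≤ k + 1) =
        I X (fun x y => x + y + 1 ≤ k) + I X (fun x y => x + y + 1 = k + 1 ∧ y < k + 1) := by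
      unfold I
      rw [← Finset.sum_add_distrib]
      apply Finset.sum_congr rfl
      intro v _
      split_ifs <;> omega
    rw [h2, I_anti X (k + 1) (k + 1) hk le_rfl]
    linarith

theorem I_diag (X c : ℕ) (hc : 2 * c ≤ X) :
    I X (fun x y => x = y ∧ c ≤ x ∧ x < X - c) = X - 2 * c := by
  rw [I_eq_card]
  have : X - 2 * c = (Finset.Ico c (X - c)).card := by
    rw [Nat.card_Ico]; omega
  rw [this]
  refine Finset.card_bij (fun v _ => (v.1 : ℕ)) ?_ ?_ ?_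
  · intro v hv
    simp only [Finset.mem_filter, Finset.mem_univ, true_and] at hv
    simp only [Finset.mem_Ico]
    omega
  · rintro ⟨⟨x, hx⟩, ⟨y, hy⟩⟩ hv ⟨⟨x', hx'⟩, ⟨y', hy'⟩⟩ hv' h
    simp only [Finset.mem_filter, Finset.mem_univ, true_and] at hv hv' h
    simp only [Prod.mk.injEq, Fin.mk.injEq]
    omega
  · intro i hi
    simp only [Finset.mem_Ico] at hi
    refine ⟨(⟨i, by omega⟩, ⟨i, by omega⟩), ?_, rfl⟩
    simp only [Finset.mem_filter, Finset.mem_univ, true_and]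
    omega

theorem balanced (g : Good h k r a0 b0 a1 b1) : Balanced (PP (2 * h) k a0 b0 a1 b1) := by
  obtain ⟨hk, hk1, hkX, r0, r1, ha0, hb0, ha1, hb1, hr, bal⟩ := g
  set X := 2 * h with hX
  set c := (k + 1) / 2 with hc
  -- basic counts
  have T0 := I_tri X k hkX.le
  have T1 : I X (fun x y => (X - 1 - x) + (X - 1 - y) + 1 ≤ k) = I X (fun x y => x + y + 1 ≤ k) :=
    I_rot X (fun x y => x + y + 1 ≤ k)
  have R0a := I_anti X k a0 hkX.le (by omega)
  have R0b : I X (fun x y => y + x + 1 = k ∧ x < b0) = b0 := by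
    rw [I_swap X (fun x y => x + y + 1 = k ∧ y < b0)]
    exact I_anti X k b0 hkX.le (by omega)
  have R1b : I X (fun x y => (X - 1 - x) + (X - 1 - y) + 1 = k ∧ (X - 1 - y) < b1) = b1 := by
    rw [I_rot X (fun x y => x + y + 1 = k ∧ y < b1)]
    exact I_anti X k b1 hkX.le (by omega)
  have R1a : I X (fun x y => (X - 1 - y) + (X - 1 - x) + 1 = k ∧ (X - 1 - x) < a1) = a1 := by
    rw [I_rot X (fun x y => y + x + 1 = k ∧ x < a1),
      I_swap X (fun x y => x + y + 1 = k ∧ y < a1)]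
    exact I_anti X k a1 hkX.le (by omega)
  have Bd := I_diag X c (by omega)
  have B3 : I X (fun x y => ¬ (y + x + 1 ≤ k) ∧ ¬ ((X - 1 - y) + (X - 1 - x) + 1 ≤ k) ∧ x < y) =
      I X (fun x y => ¬ (x + y + 1 ≤ k) ∧ ¬ ((X - 1 - x) + (X - 1 - y) + 1 ≤ k) ∧ y < x) :=
    I_swap X (fun x y => ¬ (x + y + 1 ≤ k) ∧ ¬ ((X - 1 - x) + (X - 1 - y) + 1 ≤ k) ∧ y < x)
  have U : I X (fun _ _ => True) = X * X := by
    unfold I; simp
  have E1 : I X (fun _ _ => True) = I X (fun x y => x + y + 1 ≤ k) +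
      I X (fun x y => (X - 1 - x) + (X - 1 - y) + 1 ≤ k) +
      I X (fun x y => ¬ (x + y + 1 ≤ k) ∧ ¬ ((X - 1 - x) + (X - 1 - y) + 1 ≤ k) ∧ y < x) +
      I X (fun x y => ¬ (y + x + 1 ≤ k) ∧ ¬ ((X - 1 - y) + (X - 1 - x) + 1 ≤ k) ∧ x < y) +
      I X (fun x y => x = y ∧ c ≤ x ∧ x < X - c) := by
    unfold I
    simp only [← Finset.sum_add_distrib]
    apply Finset.sum_congr rfl
    rintro ⟨⟨x, hx⟩, ⟨y, hy⟩⟩ _
    simp only
    clear hk bal T0 T1 R0a R0b R1b R1a Bd B3 U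
    split_ifs <;> omega
  have E2 : I X (fun x y => part X k a0 b0 a1 b1 x y = 0) + I X (fun x y => x + y + 1 = k ∧ y < a0)
      + I X (fun x y => y + x + 1 = k ∧ x < b0) = I X (fun x y => x + y + 1 ≤ k) := by
    unfold I
    simp only [← Finset.sum_add_distrib, part_eq_zero]
    apply Finset.sum_congr rfl
    rintro ⟨⟨x, hx⟩, ⟨y, hy⟩⟩ _
    simp only
    clear hk bal T0 T1 R0a R0b R1b R1a Bd B3 U E1
    split_ifs <;> omega
  have E3 : I X (fun x y => part X k a0 b0 a1 b1 x y = 1) +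
      I X (fun x y => (X - 1 - x) + (X - 1 - y) + 1 = k ∧ (X - 1 - y) < b1)
      + I X (fun x y => (X - 1 - y) + (X - 1 - x) + 1 = k ∧ (X - 1 - x) < a1) =
      I X (fun x y => (X - 1 - x) + (X - 1 - y) + 1 ≤ k) := by
    unfold I
    simp only [← Finset.sum_add_distrib, part_eq_one]
    apply Finset.sum_congr rfl
    rintro ⟨⟨x, hx⟩, ⟨y, hy⟩⟩ _
    simp only
    clear hk bal T0 T1 R0a R0b R1b R1a Bd B3 U E1 E2
    split_ifs <;> omega
  have E4 : I X (fun x y => part X k a0 b0 a1 b1 x y = 2) =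
      I X (fun x y => ¬ (x + y + 1 ≤ k) ∧ ¬ ((X - 1 - x) + (X - 1 - y) + 1 ≤ k) ∧ y < x) +
      I X (fun x y => x + y + 1 = k ∧ y < a0) +
      I X (fun x y => (X - 1 - y) + (X - 1 - x) + 1 = k ∧ (X - 1 - x) < a1) := by
    unfold I
    simp only [← Finset.sum_add_distrib, part_eq_two]
    apply Finset.sum_congr rfl
    rintro ⟨⟨x, hx⟩, ⟨y, hy⟩⟩ _
    simp only
    clear hk bal T0 T1 R0a R0b R1b R1a Bd B3 U E1 E2 E3
    split_ifs <;> omega
  have E5 : I X (fun _ _ => True) = I X (fun x y => part X k a0 b0 a1 b1 x y = 0) +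
      I X (fun x y => part X k a0 b0 a1 b1 x y = 1) +
      I X (fun x y => part X k a0 b0 a1 b1 x y = 2) +
      I X (fun x y => part X k a0 b0 a1 b1 x y = 3) := by
    unfold I
    simp only [← Finset.sum_add_distrib]
    apply Finset.sum_congr rfl
    intro v _
    have hj : ∀ j : Fin 4, (if True then (1 : ℕ) else 0) =
        (((if j = 0 then 1 else 0) + if j = 1 then 1 else 0) + if j = 2 then 1 else 0) +
          if j = 3 then 1 else 0 := by decide
    exact hj _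
  have hXX : X * X = 4 * h ^ 2 := by rw [hX]; ring
  rw [U] at E1 E5
  rw [R0a, R0b] at E2
  rw [R1a, R1b] at E3
  rw [R0a, R1a] at E4
  rw [B3, Bd] at E1
  intro i
  have key : ∀ j : Fin 4, (Finset.univ.filter (fun v => PP X k a0 b0 a1 b1 v = j)).card =
      I X (fun x y => part X k a0 b0 a1 b1 x y = j) := by
    intro j
    rw [I_eq_card]
    rfl
  rw [key i]
  have hX2 : X ^ 2 = 4 * h ^ 2 := by rw [hX]; ring
  rw [hX2]
  have hXc : X - 2 * c = 2 * h - 2 * c := by rw [hX]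
  have hcc : 2 * c ≤ k + 1 := by omega
  fin_cases i
  · change 4 * I X (fun x y => part X k a0 b0 a1 b1 x y = 0) = 4 * h ^ 2
    omega
  · change 4 * I X (fun x y => part X k a0 b0 a1 b1 x y = 1) = 4 * h ^ 2
    omega
  · change 4 * I X (fun x y => part X k a0 b0 a1 b1 x y = 2) = 4 * h ^ 2
    omega
  · change 4 * I X (fun x y => part X k a0 b0 a1 b1 x y = 3) = 4 * h ^ 2
    omega

theorem has_of_good (g : Good h k r a0 b0 a1 b1) : HasPartition (2 * h) (4 * h + 2 * k + 3) :=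
  ⟨_, balanced g, cost_le g⟩

end

theorem V_le_of_has {X c : ℕ} (h : HasPartition X c) : V X ≤ c := by
  obtain ⟨P, hP, hc⟩ := h
  exact (Nat.sInf_le (show cost P ∈ {c | ∃ P : Mesh X → Fin 4, Balanced P ∧ cost P = c} from
    ⟨P, hP, rfl⟩)).trans hc

/-- General bound: if `k(k+1)/2 = h^2 + r` with `h ≤ r + ⌈k/2⌉` and `r + h ≤ k + ⌊k/2⌋`, the
`2h × 2h` mesh has a perfectly balanced 4-way partition of cost at most `4h + 2k + 3`. -/
theorem has_general (h k r : ℕ) (hk : k * (k + 1) = 2 * h ^ 2 + 2 * r) (hkX : k < 2 * h)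
    (h1 : h ≤ r + (k + 1) / 2) (h2 : r + h ≤ k + k / 2) (hr : r < k) :
    HasPartition (2 * h) (4 * h + 2 * k + 3) := by
  have g : Good h k r ((r + h - (k + 1) / 2) / 2) (r - (r + h - (k + 1) / 2) / 2)
      (r + h - (k + 1) / 2 - (r + h - (k + 1) / 2) / 2)
      (r - (r + h - (k + 1) / 2 - (r + h - (k + 1) / 2) / 2)) := by
    constructor <;> omega
  exact has_of_good g

theorem has64 : HasPartition 64 221 :=
  has_general 32 45 11 (by norm_num) (by norm_num) (by norm_num) (by norm_num) (by norm_num)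

theorem has256 : HasPartition 256 877 :=
  has_general 128 181 87 (by norm_num) (by norm_num) (by norm_num) (by norm_num) (by norm_num)

theorem has1024 : HasPartition 1024 3499 :=
  has_general 512 724 306 (by norm_num) (by norm_num) (by norm_num) (by norm_num) (by norm_num)

theorem has2048 : HasPartition 2048 6995 :=
  has_general 1024 1448 500 (by norm_num) (by norm_num) (by norm_num) (by norm_num) (by norm_num)

end Pool.Agent.Results.MP_d1f6bb_co.SmallerCosts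

open Pool.Agent.Results.MP_d1f6bb_co.SmallerCosts in
/-- The conjectured values `V(64) = 222`, `V(256) = 878`, `V(1024) = 3500`, `V(2048) = 6996` are all
wrong: there are perfectly balanced 4-way partitions of cost at most `221, 877, 3499, 6995`. -/
theorem Pool.Agent.Results.MP_d1f6bb_co.SmallerCosts.result :
    (HasPartition 64 221 ∧ HasPartition 256 877 ∧ HasPartition 1024 3499 ∧
      HasPartition 2048 6995) ∧
    (V 64 < 222 ∧ V 256 < 878 ∧ V 1024 < 3500 ∧ V 2048 < 6996) :=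
  ⟨⟨has64, has256, has1024, has2048⟩,
    Nat.lt_succ_of_le (V_le_of_has has64), Nat.lt_succ_of_le (V_le_of_has has256),
    Nat.lt_succ_of_le (V_le_of_has has1024), Nat.lt_succ_of_le (V_le_of_has has2048)⟩
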